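import Mathlib
import Pool.Agent.H8.BR1

open Set Function Pool.Agent.H8.BR

namespace Pool.Agent.Results.MP_0ab388_gt.Closed

/-- `A` fills `B`: every member `U` of `B` is the union of a subfamily of `A \ {U}`. -/
def Fills {X : Type} (A B : Set (Set X)) : Prop :=
  ∀ U ∈ B, ∀ x ∈ U, ∃ W ∈ A, W ≠ U ∧ x ∈ W ∧ W ⊆ U

def phi (x : ℕ → L) : ℕ → ℕ := fun n => (x n.unpair.1 n.unpair.2).toNat

lemma phi_inj : Injective phi := fun x y h => by
  funext i c
  have := congrFun h (Nat.pair i c)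
  simp only [phi, Nat.unpair_pair] at this
  revert this
  cases x i c <;> cases y i c <;> simp

lemma phi_cont : Continuous phi :=
  continuous_pi fun n => (continuous_of_discreteTopology (f := Bool.toNat)).comp
    ((continuous_apply n.unpair.2).comp (continuous_apply n.unpair.1))

lemma op (z : ℕ → L) (i c : ℕ) : IsOpen {w : ℕ → L | w i c = z i c} :=
  (isOpen_discrete {z i c}).preimage (f := fun w : ℕ → L => w i c)
    ((continuous_apply c).comp (continuous_apply i))

lemma nec {u v : L} (h : u ≠ v) : ∃ c, u c ≠ v c := by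
  by_contra hc; push Not at hc; exact h (funext hc)

lemma closed_base {W : Set X} (hW : W ∈ Base) : IsClosed (X := ℕ → L) W := by
  rcases hW with rfl | rfl | ⟨y, k, -, rfl⟩ | ⟨j, σ, -, rfl⟩
  · exact isClosed_empty
  · exact isClosed_univ
  · have : (N y k : Set (ℕ → L)) = ⋂ l < k + 1, {w : ℕ → L | w l = y l} :=
      Set.ext fun w => ⟨fun h => mem_iInter₂.2 h, fun h => mem_iInter₂.1 h⟩
    rw [this]
    exact isClosed_biInter fun l _ => isClosed_eq (continuous_apply l) continuous_const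
  · rw [← isOpen_compl_iff, isOpen_iff_forall_mem_open]
    intro z hz
    obtain ⟨l, h1, h2⟩ := first (z := z) (σ := σ) (fun h => hz (Or.inl h))
    obtain ⟨c, hc⟩ := nec h2
    have : ∃ c', j ≤ l → σ l = b → z l c' ≠ d σ c' := by
      by_cases h : j ≤ l ∧ σ l = b
      · obtain ⟨c', hc'⟩ := nec (show z l ≠ d σ from fun h' => hz ((mem_V h1 h2).2 ⟨h.1, h.2, h'⟩))
        exact ⟨c', fun _ _ => hc'⟩
      · exact ⟨0, fun a1 a2 => absurd ⟨a1, a2⟩ h⟩
    obtain ⟨c', hc'⟩ := this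
    refine ⟨({w | w l c = z l c} ∩ {w | w l c' = z l c'}) ∩ ⋂ i < l, {w | w i 0 = z i 0}, ?_,
      ((op z l c).inter (op z l c')).inter ((finite_lt_nat l).isOpen_biInter fun i _ => op z i 0),
      ⟨rfl, rfl⟩, by simp⟩
    rintro w ⟨⟨w1, w2⟩, w3⟩ (rfl | ⟨i, a1, a2, a3, a4⟩)
    · exact hc w1.symm
    rcases lt_trichotomy i l with h | rfl | h
    · have := mem_iInter₂.1 w3 i h
      simp only [mem_setOf_eq] at this
      rw [a4, h1 i h, a2] at this
      simp [b, d] at this
    · exact hc' a1 a2 (w2.symm.trans (congrFun a4 c'))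
    · exact hc (w1.symm.trans (congrFun (a3 l h) c))

theorem result :
    ∃ F : Set (Set (ℕ → ℕ)), (∀ U ∈ F, IsClosed U) ∧ Fills F F ∧
      ∀ F0 F1 : Set (Set (ℕ → ℕ)), F = F0 ∪ F1 → Disjoint F0 F1 → ¬ (Fills F0 F ∧ Fills F1 F) := by
  let im : Set X → Set (ℕ → ℕ) := fun W => phi '' W
  have hinj : Injective im := image_injective.2 phi_inj
  refine ⟨im '' Base, ?_, ?_, ?_⟩
  · rintro _ ⟨W, hW, rfl⟩
    exact ((closed_base hW).isCompact.image phi_cont).isClosed
  · rintro _ ⟨U, hU, rfl⟩ _ ⟨x, hx, rfl⟩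
    have : ∃ p ∈ U, p ≠ x := by
      by_contra hc
      push Not at hc
      exact no_isol x ((eq_singleton_iff_unique_mem.2 ⟨hx, hc⟩) ▸ basis.isOpen hU)
    obtain ⟨p, p1, p2⟩ := this
    obtain ⟨W, w1, w2, w3⟩ := basis.exists_subset_of_mem_open (a := (x : X)) (u := U \ {p})
      ⟨hx, p2.symm⟩ ((basis.isOpen hU).sdiff isClosed_singleton)
    exact ⟨im W, ⟨W, w1, rfl⟩, fun h => (w3 (hinj h ▸ p1)).2 rfl, ⟨x, w2, rfl⟩,
      image_mono (w3.trans diff_subset)⟩
  · rintro F0 F1 hu hd ⟨h0, h1⟩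
    have key : ∀ G, G ⊆ im '' Base → Fills G (im '' Base) →
        TopologicalSpace.IsTopologicalBasis (Base ∩ im ⁻¹' G) := fun G hG hf => by
      refine TopologicalSpace.isTopologicalBasis_of_isOpen_of_nhds
        (fun W hW => basis.isOpen hW.1) fun x u hx hu => ?_
      obtain ⟨U, u1, u2, u3⟩ := basis.exists_subset_of_mem_open hx hu
      obtain ⟨W', w1, -, w3, w4⟩ := hf _ ⟨U, u1, rfl⟩ _ ⟨x, u2, rfl⟩
      obtain ⟨W, w5, rfl⟩ := hG w1
      exact ⟨W, ⟨w5, w1⟩, (phi_inj.mem_set_image).1 w3,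
        ((image_subset_image_iff phi_inj).1 w4).trans u3⟩
    refine base_nonres _ _ ?_ ((hd.preimage im).mono inter_subset_right inter_subset_right)
      (key F0 (hu ▸ subset_union_left) h0) (key F1 (hu ▸ subset_union_right) h1)
    rw [← inter_union_distrib_left, ← preimage_union, ← hu, preimage_image_eq _ hinj, inter_self]

end Pool.Agent.Results.MP_0ab388_gt.Closed
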